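import Pool.Agent.KS6_48.SLD.Sweep
import Pool.Graph.R_pool_sql_team_seeded_47a924f7.T6.H90.SL.K

/-!
# Barycentric coordinates, refined count
-/

set_option autoImplicit false

namespace Pool.Agent.KS6_48.SLD

open Pool.Agent.T6.H90.SL Pool.Agent.T6.H90.Upward

/-- barycentric coordinates on a supergraph -/
theorem exists_coords' (b1 : StmtB1) (b2 : StmtB2) (b3 : StmtB3) (hd : StmtD) (he : StmtE) (hg : StmtG)
    (hh : StmtH) (i1 : StmtI1) (i2 : StmtI2) (i3 : StmtI3) (V : Type) [Fintype V] [Nonempty V]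
    (E : V → V → Prop) (vs : List V) (h1 : vs.Nodup) (h2 : ∀ v, v ∈ vs) (h3 : Sweep E vs []) :
    ∃ (α : Type) (P : α → Prop) (R : α → α → Prop) (x₁ x₂ x₃ : α → ℤ) (N : ℤ) (φ : V → α),
      Function.Injective φ ∧ (∀ v, P (φ v)) ∧ (∀ u v, E u v → R (φ u) (φ v)) ∧
      N ≤ 54 * ((Fintype.card V : ℤ) + Nat.card {v // ModB4.Src E v}) + 15 ∧
      (∀ z, P z → x₁ z + x₂ z + x₃ z = N ∧ 0 ≤ x₁ z ∧ 0 ≤ x₂ z ∧ 0 ≤ x₃ z) ∧
      (∀ u v, R u v → P u ∧ P v ∧ x₃ u - x₁ u < x₃ v - x₁ v) ∧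
      (∀ u v, R u v → ∀ z, P z → z ≠ u → z ≠ v →
        (x₁ u < x₁ z ∧ x₁ v < x₁ z) ∨ (x₂ u < x₂ z ∧ x₂ v < x₂ z) ∨
          (x₃ u < x₃ z ∧ x₃ v < x₃ z)) ∧
      ∀ z, P z → ∃ u v, R u v ∧ (z = u ∨ z = v) := by
  classical
  obtain ⟨B₀, W₀, F₀, D₀, i_1, i_2, i_3, i_4, H₀, g, g_inj, gE, hD, hcard⟩ :=
    b4' b1 b2 b3 V E vs h1 h2 h3
  obtain ⟨B, W, F, D, i_5, i_6, i_7, i_8, H, jb, jw, jb_inj, jw_inj, jE, star, hcard'⟩ :=
    c' B₀ W₀ F₀ D₀ H₀ hD
  have hne : Nonempty D₀ := Fintype.card_pos_iff.1 (by omega)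
  obtain ⟨d0, -⟩ := jE (Classical.choice hne)
  obtain ⟨h, hstn⟩ := exists_stn hd he H star d0
  obtain ⟨M, hM⟩ := hg B W F D H h d0 hstn
  obtain ⟨L, PB, PW, Q, OB, OW, hEE, hPB, hQ, hft⟩ := hh (B ⊕ F) W D M
  obtain ⟨x₁, x₂, x₃, N, hN, hx, hR, hbary, hdeg⟩ :=
    i3 (B ⊕ F) (W ⊕ Option (B ⊕ F)) (M.src M.e0) L PB PW Q OB OW hEE
      (fun lb lw hlb hlw => hasInv i1 i2 _ _ _ L PB PW Q OB OW hEE lb lw hlb hlw)
  set R := clQ (M.src M.e0) L Q with hRdef
  let ψ : W → (B ⊕ F) ⊕ Option (W ⊕ Option (B ⊕ F)) := fun y =>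
    Sum.inr (if y = M.ft then none else some (Sum.inl y))
  have hψ : Function.Injective ψ := by
    intro y y' hy
    have hy' := Sum.inr_injective hy
    by_cases e1 : y = M.ft <;> by_cases e2 : y' = M.ft <;> simp [e1, e2] at hy' ⊢
    exact hy'
  have hdart : ∀ d : D, R (Sum.inl (Sum.inl (H.b d))) (ψ (H.w d)) := by
    intro d
    by_cases e : H.w d = M.ft
    · have h5 := hft _ (e ▸ hM d)
      simp only [ψ, e, if_true]
      exact h5
    · have h5 := hQ _ e _ (hM d)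
      simp only [ψ, if_neg e]
      exact h5
  let φ : V → (B ⊕ F) ⊕ Option (W ⊕ Option (B ⊕ F)) := fun v =>
    match g v with
    | Sum.inl x => Sum.inl (Sum.inl (jb x))
    | Sum.inr y => ψ (jw y)
  have hφ : Function.Injective φ := by
    intro u v huv
    apply g_inj
    simp only [φ] at huv
    rcases hu : g u with x | x <;> rcases hv : g v with y | y <;> rw [hu, hv] at huv
    · simp only [Sum.inl.injEq] at huv
      rw [jb_inj huv]
    · simp [ψ] at huv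
    · simp [ψ] at huv
    · rw [jw_inj (hψ huv)]
  have hφE : ∀ u v, E u v → R (φ u) (φ v) := by
    intro u v huv
    obtain ⟨d, hu, hv⟩ := gE u v huv
    obtain ⟨d', hb', hw'⟩ := jE d
    simp only [φ, hu, hv]
    rw [← hb', ← hw']
    exact hdart d'
  refine ⟨_, clP PB PW, R, x₁, x₂, x₃, N, φ, hφ, ?_, hφE, ?_, hx, hR, hbary, hdeg⟩
  · intro v
    simp only [φ]
    rcases hv : g v with x | x
    · exact hPB _
    · obtain ⟨d, hd'⟩ := H.w_surj (jw x)
      change clP PB PW (ψ (jw x))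
      rw [← hd']
      exact (hR _ _ (hdart d)).2.1
  · have c1 : PB.card ≤ Fintype.card B + Fintype.card F := by
      calc PB.card ≤ Fintype.card (B ⊕ F) := Finset.card_le_univ _
        _ = _ := Fintype.card_sum
    have c2 : PW.card ≤ Fintype.card W + (Fintype.card B + Fintype.card F + 1) := by
      calc PW.card ≤ Fintype.card (W ⊕ Option (B ⊕ F)) := Finset.card_le_univ _
        _ = _ := by rw [Fintype.card_sum, Fintype.card_option, Fintype.card_sum]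
    have c3 : 0 < Fintype.card V := Fintype.card_pos
    have c4 : PB.card + PW.card + 1 + 31 ≤
        18 * (Fintype.card V + Nat.card {v // ModB4.Src E v} + 2) := by omega
    have c5 : (PB.card : ℤ) + PW.card + 1 + 31 ≤
        18 * (Fintype.card V + Nat.card {v // ModB4.Src E v} + 2) := by exact_mod_cast c4
    linarith


end Pool.Agent.KS6_48.SLD
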