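import Pool.Agent.KS6_48.SLD.Coords

/-!
# Straight-line drawings from coordinates: isolated vertices and reflection
-/

set_option autoImplicit false

namespace Pool.Agent.KS6_48.SLD

open Pool.Agent.T6.H90.SL Pool.Agent.T6.H90.Upward

/-- the points `pos` give a straight-line upward planar drawing of `E` -/
structure SD {V : Type} (E : V → V → Prop) (pos : V → ℤ × ℤ) : Prop where
  inj : Function.Injective pos
  up : ∀ u v, E u v → (pos u).2 < (pos v).2
  voe : ∀ u v w, E u v → toPlane (pos w) ∈ segment ℝ (toPlane (pos u)) (toPlane (pos v)) →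
    w = u ∨ w = v
  pl : ∀ u v x y, E u v → E x y → (u, v) ≠ (x, y) →
    ∀ z ∈ segment ℝ (toPlane (pos u)) (toPlane (pos v)),
      z ∈ segment ℝ (toPlane (pos x)) (toPlane (pos y)) →
      ∃ w, (w = u ∨ w = v) ∧ (w = x ∨ w = y) ∧ z = toPlane (pos w)

theorem SD.exists_drawing {V : Type} {E : V → V → Prop} {pos : V → ℤ × ℤ} (h : SD E pos)
    {a c : ℤ} {W H : ℝ} (h1 : ∀ v, a ≤ (pos v).1) (h2 : ∀ v, ((pos v).1 : ℝ) ≤ a + W)
    (h3 : ∀ v, c ≤ (pos v).2) (h4 : ∀ v, ((pos v).2 : ℝ) ≤ c + H) :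
    ∃ D : Drawing E, D.Straight ∧ D.FitsIn W H := by
  have hbox : ∀ v : V, toPlane (pos v) ∈
      Set.Icc (a : ℝ) (a + W) ×ˢ Set.Icc (c : ℝ) (c + H) := by
    intro v
    have k1 : (a : ℝ) ≤ (pos v).1 := by exact_mod_cast h1 v
    have k3 : (c : ℝ) ≤ (pos v).2 := by exact_mod_cast h3 v
    exact ⟨⟨k1, h2 v⟩, ⟨k3, h4 v⟩⟩
  refine ⟨{ pos := pos
            bends := fun _ _ => []
            pos_injective := h.inj
            upward := ?_
            vertex_not_on_edge := ?_
            planar := ?_ }, fun _ _ _ => rfl, a, c, fun v => ⟨(hbox v).1, (hbox v).2⟩, ?_⟩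
  · intro u v huv
    simp only [List.nil_append, List.isChain_cons_cons, List.isChain_singleton, and_true]
    exact h.up u v huv
  · intro u v w huv hw
    rw [curve_nil] at hw
    exact h.voe u v w huv hw
  · intro u v x y huv hxy hne z hz hz'
    rw [curve_nil] at hz hz'
    exact h.pl u v x y huv hxy hne z hz hz'
  · intro u v _ z hz
    rw [curve_nil] at hz
    have hconv : Convex ℝ (Set.Icc (a : ℝ) (a + W) ×ˢ Set.Icc (c : ℝ) (c + H)) :=
      (convex_Icc _ _).prod (convex_Icc _ _)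
    have := hconv.segment_subset (hbox u) (hbox v) hz
    exact ⟨this.1, this.2⟩

/-! ### Reflection -/

/-- the reflection of the plane -/
def fl (z : ℝ × ℝ) : ℝ × ℝ := (z.1, -z.2)

theorem fl_fl (z : ℝ × ℝ) : fl (fl z) = z := by simp [fl]

theorem fl_segment {a b z : ℝ × ℝ} (h : z ∈ segment ℝ a b) : fl z ∈ segment ℝ (fl a) (fl b) := by
  obtain ⟨s, t, hs, ht, hst, rfl⟩ := h
  refine ⟨s, t, hs, ht, hst, ?_⟩
  ext
  · simp [fl]
  · simp [fl]
    ring

theorem fl_toPlane (p : ℤ × ℤ) : fl (toPlane p) = toPlane (p.1, -p.2) := by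
  simp [fl, toPlane]

theorem SD.flip {V : Type} {E : V → V → Prop} {pos : V → ℤ × ℤ} (h : SD (fun u v => E v u) pos) :
    SD E (fun v => ((pos v).1, -(pos v).2)) := by
  refine ⟨?_, ?_, ?_, ?_⟩
  · intro u v huv
    simp only [Prod.mk.injEq, neg_inj] at huv
    exact h.inj (Prod.ext huv.1 huv.2)
  · intro u v huv
    have := h.up v u huv
    simp only
    omega
  · intro u v w huv hw
    have h1 := fl_segment hw
    rw [← fl_toPlane, ← fl_toPlane, ← fl_toPlane, fl_fl, fl_fl, fl_fl] at h1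
    rw [segment_symm] at h1
    exact (h.voe v u w huv h1).symm
  · intro u v x y huv hxy hne z hz hz'
    have h1 := fl_segment hz
    have h2 := fl_segment hz'
    rw [← fl_toPlane, ← fl_toPlane, fl_fl, fl_fl, segment_symm] at h1 h2
    obtain ⟨w, w1, w2, w3⟩ := h.pl v u y x huv hxy (by
      intro he
      apply hne
      rw [Prod.mk.injEq] at he ⊢
      exact ⟨he.2, he.1⟩) _ h1 h2
    refine ⟨w, w1.symm, w2.symm, ?_⟩
    rw [← fl_toPlane, ← w3, fl_fl]

theorem mono_flip {V : Type} {E : V → V → Prop} (h : Nonempty (Mono E)) :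
    Nonempty (Mono (fun u v => E v u)) := by
  obtain ⟨D⟩ := h
  refine ⟨⟨D.px, fun v => -D.py v, fun u v t => D.X v u (-t), ?_, ?_, ?_, ?_, ?_, ?_, ?_⟩⟩
  · intro u v h1 h2
    exact D.inj u v h1 (neg_inj.1 h2)
  · intro u v huv
    exact neg_lt_neg (D.up v u huv)
  · intro u v huv
    refine (D.cont v u huv).comp continuous_neg.continuousOn ?_
    intro t ht
    exact ⟨by linarith [ht.2], by linarith [ht.1]⟩
  · intro u v huv
    simp only [neg_neg]
    exact D.X_tgt v u huv
  · intro u v huv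
    simp only [neg_neg]
    exact D.X_src v u huv
  · intro u v w huv h1 h2
    simp only [neg_neg] at h2
    exact (D.vert v u w huv ⟨by linarith [h1.2], by linarith [h1.1]⟩ h2).symm
  · intro u v x y t huv hxy hne h1 h2 he
    obtain ⟨w, w1, w2, w3⟩ := D.cross v u y x (-t) huv hxy (by
      intro he
      apply hne
      rw [Prod.mk.injEq] at he ⊢
      exact ⟨he.2, he.1⟩) ⟨by linarith [h1.2], by linarith [h1.1]⟩
      ⟨by linarith [h2.2], by linarith [h2.1]⟩ he
    exact ⟨w, w1.symm, w2.symm, by linarith⟩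

theorem bip_flip {V : Type} {E : V → V → Prop} (h : IsBipartiteDAG E) :
    IsBipartiteDAG (fun u v => E v u) := by
  obtain ⟨A, hA⟩ := h
  exact ⟨Aᶜ, fun u v huv => ⟨(hA v u huv).2, fun h => h (hA v u huv).1⟩⟩

/-! ### Restriction -/

theorem mono_restrict {V : Type} {E : V → V → Prop} (P : V → Prop) (h : Nonempty (Mono E)) :
    Nonempty (Mono (fun u v : {v // P v} => E u v)) := by
  obtain ⟨D⟩ := h
  refine ⟨⟨fun v => D.px v, fun v => D.py v, fun u v t => D.X u v t, ?_, ?_, ?_, ?_, ?_, ?_, ?_⟩⟩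
  · intro u v h1 h2
    exact Subtype.ext (D.inj u v h1 h2)
  · intro u v huv
    exact D.up u v huv
  · intro u v huv
    exact D.cont u v huv
  · intro u v huv
    exact D.X_src u v huv
  · intro u v huv
    exact D.X_tgt u v huv
  · intro u v w huv h1 h2
    rcases D.vert u v w huv h1 h2 with h | h
    · exact Or.inl (Subtype.ext h)
    · exact Or.inr (Subtype.ext h)
  · intro u v x y t huv hxy hne h1 h2 he
    obtain ⟨w, w1, w2, w3⟩ := D.cross u v x y t huv hxy (by
      intro he
      apply hne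
      rw [Prod.mk.injEq] at he ⊢
      exact ⟨Subtype.ext he.1, Subtype.ext he.2⟩) h1 h2 he
    rcases w1 with rfl | rfl
    · refine ⟨u, Or.inl rfl, ?_, w3⟩
      rcases w2 with h | h
      · exact Or.inl (Subtype.ext h)
      · exact Or.inr (Subtype.ext h)
    · refine ⟨v, Or.inr rfl, ?_, w3⟩
      rcases w2 with h | h
      · exact Or.inl (Subtype.ext h)
      · exact Or.inr (Subtype.ext h)

theorem bip_restrict {V : Type} {E : V → V → Prop} (P : V → Prop) (h : IsBipartiteDAG E) :
    IsBipartiteDAG (fun u v : {v // P v} => E u v) := by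
  obtain ⟨A, hA⟩ := h
  exact ⟨Subtype.val ⁻¹' A, fun u v huv => hA u v huv⟩

/-! ### Drawings -/

/-- the modules -/
structure Mods : Prop where
  a2 : StmtA2
  b1 : StmtB1
  b2 : StmtB2
  b3 : StmtB3
  hd : StmtD
  he : StmtE
  hg : StmtG
  hh : StmtH
  i1 : StmtI1
  i2 : StmtI2
  i3 : StmtI3
  j : StmtJ

theorem sd_of_sweep (md : Mods) (V : Type) [Fintype V] [Nonempty V] (E : V → V → Prop)
    (hE : IsBipartiteDAG E) (hM : Nonempty (Mono E)) :
    ∃ (pos : V → ℤ × ℤ) (N : ℤ), SD E pos ∧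
      N ≤ 54 * ((Fintype.card V : ℤ) + Nat.card {v // ModB4.Src E v}) + 15 ∧
      ∀ v, 0 ≤ (pos v).1 ∧ (pos v).1 ≤ N ∧ -N ≤ (pos v).2 ∧ (pos v).2 ≤ N := by
  obtain ⟨vs, h1, h2, h3⟩ := md.a2 V E hE hM
  obtain ⟨α, P, R, x₁, x₂, x₃, N, φ, hφ, hP, hφE, hN, hx, hR, hbary, hdeg⟩ :=
    exists_coords' md.b1 md.b2 md.b3 md.hd md.he md.hg md.hh md.i1 md.i2 md.i3 V E vs h1 h2 h3
  obtain ⟨j1, j2, j3⟩ := md.j α P R x₁ x₂ x₃ N (fun z hz => (hx z hz).1) hR hbary hdeg
  refine ⟨fun v => (x₂ (φ v), x₃ (φ v) - x₁ (φ v)), N, ⟨?_, ?_, ?_, ?_⟩, hN, ?_⟩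
  · intro u v huv
    exact hφ (j1 _ _ (hP u) (hP v) huv)
  · intro u v huv
    exact (hR _ _ (hφE u v huv)).2.2
  · intro u v w huv hw
    rcases j2 _ _ (φ w) (hφE u v huv) (hP w) hw with h | h
    · exact Or.inl (hφ h)
    · exact Or.inr (hφ h)
  · intro u v x y huv hxy hne z hz hz'
    obtain ⟨w, hw1, hw2, hw3⟩ := j3 _ _ _ _ (hφE u v huv) (hφE x y hxy) (by
      intro h
      apply hne
      rw [Prod.mk.injEq] at h
      rw [hφ h.1, hφ h.2]) z hz hz'
    rcases hw1 with h | h
    · subst h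
      refine ⟨u, Or.inl rfl, ?_, hw3⟩
      rcases hw2 with h | h
      · exact Or.inl (hφ h)
      · exact Or.inr (hφ h)
    · subst h
      refine ⟨v, Or.inr rfl, ?_, hw3⟩
      rcases hw2 with h | h
      · exact Or.inl (hφ h)
      · exact Or.inr (hφ h)
  · intro v
    obtain ⟨e1, e2, e3, e4⟩ := hx _ (hP v)
    simp only
    omega

theorem card_src_add {V : Type} [Fintype V] (E : V → V → Prop)
    (h : ∀ v, ∃ u, E u v ∨ E v u) :
    Nat.card {v // ModB4.Src E v} + Nat.card {v // ModB4.Src (fun u v => E v u) v} ≤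
      Fintype.card V := by
  classical
  rw [Nat.card_eq_fintype_card, Nat.card_eq_fintype_card, Fintype.card_subtype,
    Fintype.card_subtype, ← Finset.card_union_of_disjoint, ← Finset.card_univ]
  · exact Finset.card_le_card (Finset.subset_univ _)
  · rw [Finset.disjoint_filter]
    intro v _ h1 h2
    obtain ⟨u, hu | hu⟩ := h v
    · exact h1 u hu
    · exact h2 u hu

theorem sd_ni (md : Mods) (V : Type) [Fintype V] [Nonempty V] (E : V → V → Prop)
    (hE : IsBipartiteDAG E) (hM : Nonempty (Mono E)) (hni : ∀ v, ∃ u, E u v ∨ E v u) :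
    ∃ (pos : V → ℤ × ℤ) (N : ℤ), SD E pos ∧ N ≤ 81 * (Fintype.card V : ℤ) + 15 ∧
      ∀ v, 0 ≤ (pos v).1 ∧ (pos v).1 ≤ N ∧ -N ≤ (pos v).2 ∧ (pos v).2 ≤ N := by
  have hc := card_src_add E hni
  rcases le_total (Nat.card {v // ModB4.Src E v})
    (Nat.card {v // ModB4.Src (fun u v => E v u) v}) with hle | hle
  · obtain ⟨pos, N, h1, h2, h3⟩ := sd_of_sweep md V E hE hM
    refine ⟨pos, N, h1, ?_, h3⟩
    omega
  · obtain ⟨pos, N, h1, h2, h3⟩ := sd_of_sweep md V (fun u v => E v u) (bip_flip hE) (mono_flip hM)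
    refine ⟨fun v => ((pos v).1, -(pos v).2), N, h1.flip, ?_, ?_⟩
    · omega
    · intro v
      obtain ⟨k1, k2, k3, k4⟩ := h3 v
      simp only
      omega

theorem draw (md : Mods) (V : Type) [Fintype V] (E : V → V → Prop)
    (hE : IsBipartiteDAG E) (hM : Nonempty (Mono E)) :
    ∃ D : Drawing E, D.Straight ∧
      D.FitsIn (81 * Fintype.card V + 16) (162 * Fintype.card V + 30) := by
  classical
  by_cases hne : Nonempty {v : V // ∃ u, E u v ∨ E v u}
  · obtain ⟨pos, N, h1, h2, h3⟩ := sd_ni md {v : V // ∃ u, E u v ∨ E v u}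
      (fun u v => E u v) (bip_restrict _ hE) (mono_restrict _ hM) (by
        rintro ⟨v, u, hu | hu⟩
        · exact ⟨⟨u, v, Or.inr hu⟩, Or.inl hu⟩
        · exact ⟨⟨u, v, Or.inl hu⟩, Or.inr hu⟩)
    have hcard : Fintype.card {v : V // ∃ u, E u v ∨ E v u} ≤ Fintype.card V :=
      Fintype.card_subtype_le _
    have hV : 1 ≤ Fintype.card V := by
      obtain ⟨v, -⟩ := hne
      exact Fintype.card_pos_iff.2 ⟨v⟩
    set ix : V → ℤ := fun v => ((Fintype.equivFin V v : ℕ) : ℤ) with hix
    have hix0 : ∀ v, 0 ≤ ix v ∧ ix v < Fintype.card V := by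
      intro v
      refine ⟨by positivity, ?_⟩
      have := (Fintype.equivFin V v).isLt
      simp only [hix]
      exact_mod_cast this
    have hixi : Function.Injective ix := by
      intro u v huv
      simp only [hix, Nat.cast_inj] at huv
      exact (Fintype.equivFin V).injective (Fin.ext huv)
    set ps : V → ℤ × ℤ := fun v => if h : ∃ u, E u v ∨ E v u then pos ⟨v, h⟩ else
      (-1, -N + ix v) with hps
    have hp1 : ∀ (v : V) (h : ∃ u, E u v ∨ E v u), ps v = pos ⟨v, h⟩ := fun v h => dif_pos h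
    have hp2 : ∀ (v : V) (h : ¬ ∃ u, E u v ∨ E v u), ps v = (-1, -N + ix v) := fun v h => dif_neg h
    have hps' : SD E ps := by
      refine ⟨?_, ?_, ?_, ?_⟩
      · intro u v huv
        by_cases hu : ∃ w, E w u ∨ E u w <;> by_cases hv : ∃ w, E w v ∨ E v w
        · rw [hp1 u hu, hp1 v hv] at huv
          have := h1.inj huv
          exact congrArg Subtype.val this
        · rw [hp1 u hu, hp2 v hv] at huv
          have := (h3 ⟨u, hu⟩).1
          rw [huv] at this
          simp at this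
        · rw [hp2 u hu, hp1 v hv] at huv
          have := (h3 ⟨v, hv⟩).1
          rw [← huv] at this
          simp at this
        · rw [hp2 u hu, hp2 v hv, Prod.mk.injEq] at huv
          exact hixi (by linarith [huv.2])
      · intro u v huv
        rw [hp1 u ⟨v, Or.inr huv⟩, hp1 v ⟨u, Or.inl huv⟩]
        exact h1.up _ _ huv
      · intro u v w huv hw
        rw [hp1 u ⟨v, Or.inr huv⟩, hp1 v ⟨u, Or.inl huv⟩] at hw
        by_cases hw' : ∃ x, E x w ∨ E w x
        · rw [hp1 w hw'] at hw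
          rcases h1.voe _ _ _ huv hw with h | h
          · exact Or.inl (congrArg Subtype.val h)
          · exact Or.inr (congrArg Subtype.val h)
        · rw [hp2 w hw'] at hw
          exfalso
          obtain ⟨s, t, hs, ht, hst, he⟩ := hw
          have k1 : (0 : ℝ) ≤ (pos ⟨u, ⟨v, Or.inr huv⟩⟩).1 := by exact_mod_cast (h3 _).1
          have k2 : (0 : ℝ) ≤ (pos ⟨v, ⟨u, Or.inl huv⟩⟩).1 := by exact_mod_cast (h3 _).1
          have he1 := congrArg Prod.fst he
          simp only [toPlane, Prod.fst_add, Prod.smul_fst, smul_eq_mul, Int.cast_neg,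
            Int.cast_one] at he1
          have := mul_nonneg hs k1
          have := mul_nonneg ht k2
          linarith
      · intro u v x y huv hxy hne z hz hz'
        rw [hp1 u ⟨v, Or.inr huv⟩, hp1 v ⟨u, Or.inl huv⟩] at hz
        rw [hp1 x ⟨y, Or.inr hxy⟩, hp1 y ⟨x, Or.inl hxy⟩] at hz'
        obtain ⟨w, w1, w2, w3⟩ := h1.pl _ _ _ _ huv hxy (by
          intro he
          apply hne
          rw [Prod.mk.injEq] at he ⊢
          exact ⟨congrArg Subtype.val he.1, congrArg Subtype.val he.2⟩) z hz hz'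
        refine ⟨w, ?_, ?_, ?_⟩
        · rcases w1 with h | h
          · exact Or.inl (congrArg Subtype.val h)
          · exact Or.inr (congrArg Subtype.val h)
        · rcases w2 with h | h
          · exact Or.inl (congrArg Subtype.val h)
          · exact Or.inr (congrArg Subtype.val h)
        · rw [hp1 w w.2]
          exact w3
    have hN0 : 0 ≤ N := by
      obtain ⟨v⟩ := hne
      obtain ⟨k1, k2, -, -⟩ := h3 v
      linarith
    have hbox : ∀ v, -1 ≤ (ps v).1 ∧ (ps v).1 ≤ -1 + (81 * (Fintype.card V : ℤ) + 16) ∧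
        -N ≤ (ps v).2 ∧ (ps v).2 ≤ -N + (162 * (Fintype.card V : ℤ) + 30) := by
      intro v
      by_cases hv : ∃ u, E u v ∨ E v u
      · rw [hp1 v hv]
        obtain ⟨k1, k2, k3, k4⟩ := h3 ⟨v, hv⟩
        omega
      · rw [hp2 v hv]
        obtain ⟨k1, k2⟩ := hix0 v
        simp only
        omega
    refine hps'.exists_drawing (a := -1) (c := -N) (fun v => (hbox v).1) ?_
      (fun v => (hbox v).2.2.1) ?_
    · intro v
      exact_mod_cast (hbox v).2.1
    · intro v
      exact_mod_cast (hbox v).2.2.2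
  · have hE0 : ∀ u v, ¬ E u v := fun u v huv => hne ⟨⟨u, v, Or.inr huv⟩⟩
    have hS : SD E (fun v => (0, ((Fintype.equivFin V v : ℕ) : ℤ))) := by
      refine ⟨?_, fun u v h => absurd h (hE0 u v), fun u v _ h => absurd h (hE0 u v),
        fun u v _ _ h => absurd h (hE0 u v)⟩
      intro u v huv
      simp only [Prod.mk.injEq, true_and, Nat.cast_inj] at huv
      exact (Fintype.equivFin V).injective (Fin.ext huv)
    refine hS.exists_drawing (a := 0) (c := 0) (fun v => le_rfl) ?_ ?_ ?_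
    · intro v
      simp only [Int.cast_zero, zero_add]
      positivity
    · intro v
      simp only
      positivity
    · intro v
      have h1 := (Fintype.equivFin V v).isLt
      have h2 : ((Fintype.equivFin V v : ℕ) : ℝ) ≤ Fintype.card V := by exact_mod_cast h1.le
      have h3 : (0 : ℝ) ≤ Fintype.card V := by positivity
      simp only [Int.cast_natCast, Int.cast_zero, zero_add]
      linarith

end Pool.Agent.KS6_48.SLD
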