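import Pool.Graph.R_pool_sql_team_seeded_620a6dc7.H560Bip.Graph
import Pool.Graph.R_pool_sql_team_seeded_47a924f7.T6.H90.Upward.Area

/-!
# The quadratic lower bound with the constant `1 / 16`
-/

set_option autoImplicit false

namespace Pool.Agent.KS6_48.SLD

open Pool.Agent.T6.H90.Upward
open Pool.Agent.H560Bip (BipDAG Gr chainSet)

theorem chain_eq : ∀ l : List (ℤ × ℤ), chainSet l = chain l
  | [] => rfl
  | [_] => rfl
  | p :: q :: l => by
    rw [chainSet, chain, chain_eq (q :: l)]
    rfl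

/-- the vertices -/
def vt (n : ℕ) : Fin n ≃ Fin (n / 2) ⊕ Fin (n - n / 2) :=
  (finCongr (by omega : n = n / 2 + (n - n / 2))).trans finSumFinEquiv.symm

/-- the graph -/
def EG (n : ℕ) (i j : Fin n) : Prop :=
  ∃ (u : Fin (n / 2)) (v : Fin (n - n / 2)), vt n i = Sum.inl u ∧ vt n j = Sum.inr v ∧
    (Gr (n / 2) (n - n / 2)).adj u v

theorem EG_bip (n : ℕ) : IsBipartiteDAG (EG n) := by
  refine ⟨{i | ∃ u, vt n i = Sum.inl u}, ?_⟩
  rintro i j ⟨u, v, hu, hv, -⟩
  refine ⟨⟨u, hu⟩, ?_⟩
  rintro ⟨u', hu'⟩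
  rw [hv] at hu'
  cases hu'

theorem EG_adj {n : ℕ} {u : Fin (n / 2)} {v : Fin (n - n / 2)}
    (h : (Gr (n / 2) (n - n / 2)).adj u v) :
    EG n ((vt n).symm (Sum.inl u)) ((vt n).symm (Sum.inr v)) :=
  ⟨u, v, by simp, by simp, h⟩

/-- a drawing in the other format -/
def toBip {n : ℕ} (D : Drawing (EG n)) :
    Pool.Agent.H560Bip.Drawing (Gr (n / 2) (n - n / 2)) where
  pos := fun w => D.pos ((vt n).symm w)
  pos_inj := D.pos_injective.comp (vt n).symm.injective
  bends := fun u v => D.bends ((vt n).symm (Sum.inl u)) ((vt n).symm (Sum.inr v))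
  upward := fun u v h => D.upward _ _ (EG_adj h)
  planar := by
    intro u v u' v' h h' hne z hz hz'
    rw [chain_eq] at hz hz'
    obtain ⟨w, w1, w2, w3⟩ := D.planar _ _ _ _ (EG_adj h) (EG_adj h') (by
      intro he
      apply hne
      rw [Prod.mk.injEq] at he ⊢
      exact ⟨Sum.inl_injective ((vt n).symm.injective he.1),
        Sum.inr_injective ((vt n).symm.injective he.2)⟩) z hz hz'
    rcases w1 with rfl | rfl
    · left
      rcases w2 with h | h
      · exact ⟨Sum.inl_injective ((vt n).symm.injective h), w3⟩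
      · have := (vt n).symm.injective h
        cases this
    · right
      rcases w2 with h | h
      · have := (vt n).symm.injective h
        cases this
      · exact ⟨Sum.inr_injective ((vt n).symm.injective h), w3⟩
  avoid := by
    intro u v w h hw
    rw [chain_eq] at hw
    rcases D.vertex_not_on_edge _ _ _ (EG_adj h) hw with h | h
    · exact Or.inl ((vt n).symm.injective h)
    · exact Or.inr ((vt n).symm.injective h)

/-- the straight-line drawing -/
def drG (n : ℕ) : Drawing (EG n) where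
  pos := fun i => (Pool.Agent.H560Bip.dr (n / 2) (n - n / 2)).pos (vt n i)
  bends := fun _ _ => []
  pos_injective := (Pool.Agent.H560Bip.dr (n / 2) (n - n / 2)).pos_inj.comp (vt n).injective
  upward := by
    rintro i j ⟨u, v, hu, hv, h⟩
    rw [hu, hv]
    exact (Pool.Agent.H560Bip.dr (n / 2) (n - n / 2)).upward u v h
  vertex_not_on_edge := by
    rintro i j k ⟨u, v, hu, hv, h⟩ hk
    rw [hu, hv] at hk
    unfold curve at hk
    rw [← chain_eq] at hk
    rcases (Pool.Agent.H560Bip.dr (n / 2) (n - n / 2)).avoid u v _ h hk with h | h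
    · left
      exact (vt n).injective (h.trans hu.symm)
    · right
      exact (vt n).injective (h.trans hv.symm)
  planar := by
    rintro i j i' j' ⟨u, v, hu, hv, h⟩ ⟨u', v', hu', hv', h'⟩ hne z hz hz'
    rw [hu, hv] at hz
    rw [hu', hv'] at hz'
    unfold curve at hz hz'
    rw [← chain_eq] at hz hz'
    rcases (Pool.Agent.H560Bip.dr (n / 2) (n - n / 2)).planar u v u' v' h h' (by
      intro he
      apply hne
      rw [Prod.mk.injEq] at he ⊢
      refine ⟨(vt n).injective ?_, (vt n).injective ?_⟩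
      · rw [hu, hu', he.1]
      · rw [hv, hv', he.2]) z hz hz' with ⟨h1, h2⟩ | ⟨h1, h2⟩
    · refine ⟨i, Or.inl rfl, Or.inl ((vt n).injective ?_), ?_⟩
      · rw [hu, hu', h1]
      · rw [hu]
        exact h2
    · refine ⟨j, Or.inr rfl, Or.inr ((vt n).injective ?_), ?_⟩
      · rw [hv, hv', h1]
      · rw [hv]
        exact h2

theorem drG_straight (n : ℕ) : (drG n).Straight := fun _ _ _ => rfl

theorem area_EG (n : ℕ) (hn : 11 ≤ n) (D : Drawing (EG n)) (W H : ℝ) (h : D.FitsIn W H) :
    ((n : ℝ) - 11) ^ 2 / 16 ≤ W * H := by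
  obtain ⟨a, c, h1, h2⟩ := h
  have h3 := Pool.Agent.H560Bip.area_lower n hn (toBip D) a (a + W) c (c + H) (by
    refine ⟨?_, ?_⟩
    · intro w
      exact h1 _
    · intro u v huv z hz
      unfold Pool.Agent.H560Bip.Drawing.curve at hz
      rw [chain_eq] at hz
      exact h2 _ _ (EG_adj huv) z hz)
  simpa using h3

theorem le_minPoly (n : ℕ) (hn : 11 ≤ n) : ((n : ℝ) - 11) ^ 2 / 16 ≤ minPolyArea (EG n) := by
  obtain ⟨W, H, hW, hH, hfit⟩ := (drG n).exists_box
  refine le_csInf ⟨W * H, drG n, W, H, hW, hH, hfit, rfl⟩ ?_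
  rintro A ⟨D, W, H, hW, hH, hfit, rfl⟩
  exact area_EG n hn D W H hfit

end Pool.Agent.KS6_48.SLD
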