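import Pool.Graph.R_pool_sql_team_seeded_47a924f7.T6.H90.SL.B4
import Pool.Graph.R_pool_sql_team_seeded_47a924f7.T6.H90.SL.C

/-!
# Refined counts for the sweep and for the augmentation
-/

set_option autoImplicit false

namespace Pool.Agent.KS6_48.SLD

open Pool.Agent.T6.H90.SL Pool.Agent.T6.H90.SL.ModB4 Pool.Agent.T6.H90.SL.ModC

open scoped Classical in
/-- the weight of a list of vertices: two for each vertex without in-edges, one for the others -/
noncomputable def wt {V : Type} (E : V → V → Prop) (vs : List V) : ℕ :=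
  (vs.map fun v => if Src E v then 2 else 1).sum

theorem wt_nil {V : Type} (E : V → V → Prop) : wt E [] = 0 := by simp [wt]

theorem wt_cons_src {V : Type} {E : V → V → Prop} {v : V} (h : Src E v) (vs : List V) :
    wt E (v :: vs) = wt E vs + 2 := by
  simp only [wt, List.map_cons, List.sum_cons, if_pos h]
  ring

theorem wt_cons_snk {V : Type} {E : V → V → Prop} {v : V} (h : ¬ Src E v) (vs : List V) :
    wt E (v :: vs) = wt E vs + 1 := by
  simp only [wt, List.map_cons, List.sum_cons, if_neg h]
  ring

theorem sweep_S1' {V : Type} {E : V → V → Prop} (hB1 : StmtB1) (hB2 : StmtB2) (hB3 : StmtB3)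
    {vs : List V} {act : List (V × V)} (h : Sweep E vs act) :
    S1 E vs (wt E vs + 2 + act.length) act := by
  induction h with
  | nil =>
    refine ⟨Unit, Unit, Unit, Unit, inferInstance, inferInstance, inferInstance, inferInstance,
      { β := 1, ω := 1, b := id, w := id, f := id, b_surj := Function.surjective_id,
        w_surj := Function.surjective_id, f_surj := Function.surjective_id,
        b_iff := fun d e => iff_of_true rfl (Equiv.Perm.SameCycle.refl _ _),
        w_iff := fun d e => iff_of_true rfl (Equiv.Perm.SameCycle.refl _ _),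
        f_iff := fun d e => iff_of_true rfl (Equiv.Perm.SameCycle.refl _ _),
        conn := fun P _ _ d e h => h, euler := rfl, simple := fun d e _ _ => rfl },
      fun _ => (), [], (), [], ⟨?_, ?_, ?_, ?_, ?_⟩, ⟨?_, ?_, ?_⟩, ?_, rfl, ?_, ?_⟩
    · intro v hv; simp at hv
    · intro v hv; simp at hv
    · intro v hv; simp at hv
    · intro u v _ hv; simp at hv
    · intro p hp; simp at hp
    · simp
    · intro O₀ a c O₁ _; rfl
    · intro a c _ _; rfl
    · simp
    · simp [wt_nil]
    · intro h; exact absurd rfl h
  | src v vs A B new hsw hv hnd hnew hs ih =>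
    have h1 := (ih.start hB1 hB2 hv hs).grows hB1 (by simp) hs new
      (fun e he => ((hnew e).1 he).1)
    have h2 := h1.toS1
    have e1 : wt E vs + 2 + (A ++ B).length + 2 + new.length =
        wt E (v :: vs) + 2 + (A ++ new ++ B).length := by
      rw [wt_cons_src hs]
      simp only [List.length_append]
      omega
    rwa [e1] at h2
  | snk v vs A B blk hsw hv hnd hblk hb hout ih =>
    obtain ⟨ε, XR, hblk'⟩ := List.exists_cons_of_ne_nil hblk
    have e1 : A ++ blk ++ B = A ++ (ε :: XR ++ B) := by rw [hblk']; simp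
    rw [e1] at ih
    have h1 := ih.toS4
    have e2 : [ε] ++ XR = blk := by rw [hblk']; simp
    have h2 := S4.steps (v := v) hB3 XR h1 (by rw [e2]; exact hnd) (by
      rw [e2]
      exact fun e he => ((hb e).1 he).1)
    rw [e2] at h2
    have hns : ¬ Src E v := by
      intro hs
      have h3 : ε ∈ blk := by rw [hblk']; simp
      obtain ⟨h4, h5⟩ := (hb ε).1 h3
      rw [h4] at h5
      exact hs _ h5
    refine h2.finish hv hblk hb hout ?_
    have e3 : (ε :: XR).length = blk.length := by rw [hblk']
    rw [wt_cons_snk hns]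
    simp only [List.length_append, List.length_cons] at e3 ⊢
    omega

theorem wt_eq {V : Type} [Fintype V] (E : V → V → Prop) (vs : List V) (h1 : vs.Nodup)
    (h2 : ∀ v, v ∈ vs) : wt E vs = Fintype.card V + Nat.card {v // Src E v} := by
  classical
  have h3 : vs.toFinset = Finset.univ := by
    ext v
    simp [h2 v]
  have h4 : wt E vs = ∑ v : V, if Src E v then 2 else 1 := by
    rw [← h3, List.sum_toFinset _ h1]
    unfold wt
    congr 1
  rw [h4, Nat.card_eq_fintype_card, Fintype.card_subtype, Finset.card_filter,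
    ← Finset.card_univ, Finset.card_eq_sum_ones, ← Finset.sum_add_distrib]
  refine Finset.sum_congr rfl fun v _ => ?_
  by_cases hs : Src E v <;> simp [hs]

/-- a sweep gives a plane hypermap that contains the graph, refined count -/
theorem b4' (h1 : StmtB1) (h2 : StmtB2) (h3 : StmtB3) (V : Type) [Fintype V] [Nonempty V]
    (E : V → V → Prop) (vs : List V) (hnd : vs.Nodup) (hall : ∀ v, v ∈ vs) (hsw : Sweep E vs []) :
    ∃ (B W F D : Type) (_ : Fintype B) (_ : Fintype W) (_ : Fintype F) (_ : Fintype D)
      (H : PH B W F D) (g : V → B ⊕ W), Function.Injective g ∧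
      (∀ u v, E u v → ∃ d, g u = Sum.inl (H.b d) ∧ g v = Sum.inr (H.w d)) ∧
      2 ≤ Fintype.card D ∧
      Fintype.card B + Fintype.card W ≤ Fintype.card V + Nat.card {v // Src E v} + 2 := by
  classical
  obtain ⟨B, W, F, D, _, _, _, _, H, γ, al, e0, O, k1, -, -, -, k5, k6⟩ := sweep_S1' h1 h2 h3 hsw
  refine ⟨B, W, F, D, inferInstance, inferInstance, inferInstance, inferInstance, H,
    fun v => if Src E v then Sum.inl (H.b (γ v)) else Sum.inr (H.w (γ v)), ?_, ?_, ?_, ?_⟩
  · intro u v huv
    simp only at huv
    by_cases hu : Src E u <;> by_cases hv : Src E v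
    · rw [if_pos hu, if_pos hv] at huv
      exact k1.i1 u (hall u) v (hall v) hu hv (Sum.inl.inj huv)
    · rw [if_pos hu, if_neg hv] at huv
      simp at huv
    · rw [if_neg hu, if_pos hv] at huv
      simp at huv
    · rw [if_neg hu, if_neg hv] at huv
      exact k1.i2 u (hall u) v (hall v) hu hv (Sum.inr.inj huv)
  · intro u v huv
    obtain ⟨l1, l2, d, l3, l4⟩ := k1.i5 u v huv (hall v)
    refine ⟨d, ?_, ?_⟩
    · simp only
      rw [if_pos l2, l3]
    · simp only
      rw [if_neg (fun h => h u huv), l4]
  · apply k6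
    rintro rfl
    obtain ⟨v⟩ := (inferInstance : Nonempty V)
    simpa using hall v
  · rw [← wt_eq E vs hnd hall]
    simpa using k5

/-- the augmentation, refined count -/
theorem c' (B W F D : Type) [Fintype B] [Fintype W] [Fintype F] [Fintype D]
    (H : PH B W F D) (hD : 2 ≤ Fintype.card D) :
    ∃ (B' W' F' D' : Type) (_ : Fintype B') (_ : Fintype W') (_ : Fintype F') (_ : Fintype D')
      (H' : PH B' W' F' D') (jb : B → B') (jw : W → W'), Function.Injective jb ∧
      Function.Injective jw ∧ (∀ d, ∃ d', H'.b d' = jb (H.b d) ∧ H'.w d' = jw (H.w d)) ∧ Star H' ∧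
      2 * (Fintype.card B' + Fintype.card F') + Fintype.card W' + 33 ≤
        18 * (Fintype.card B + Fintype.card W) := by
  refine ⟨B ⊕ D, W ⊕ D, (D ⊕ D) ⊕ F, DD D, inferInstance, inferInstance, inferInstance,
    inferInstance, aug H hD, Sum.inl, Sum.inl, Sum.inl_injective, Sum.inl_injective, ?_,
    star_aug H hD, ?_⟩
  · intro d
    exact ⟨DD.d0 d, rfl, rfl⟩
  · have h1 := two_face H hD
    have h2 := H.euler
    have h3 : 0 < Fintype.card W := by
      have : 0 < Fintype.card D := by omega
      obtain ⟨d⟩ := Fintype.card_pos_iff.1 this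
      exact Fintype.card_pos_iff.2 ⟨H.w d⟩
    simp only [Fintype.card_sum]
    omega

end Pool.Agent.KS6_48.SLD
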